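import Pool.Agent.H40.Omega

set_option autoImplicit false

namespace Pool.Agent.Results.MP_1909e4_lc.NoFmpExtension

open Pool.Agent.H40.Omega

/-- For every `n ≥ 2` some normal extension of `Log(ω^n, ≼)` lacks the finite model property. -/
theorem result (n : ℕ) (hn : 2 ≤ n) : ∃ L : Set Fm, Extension (Log (PowLe n)) L ∧ ¬ FMP L := by
  obtain ⟨k, rfl⟩ : ∃ k, n = k + 2 := ⟨n - 2, by omega⟩
  exact ⟨Log RR, ext k, not_fmp⟩

end Pool.Agent.Results.MP_1909e4_lc.NoFmpExtension
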